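import Pool.Agent.Y522.Stm7
import Pool.Agent.Y784.SH.Ext
import Pool.Agent.Y248.SH.Germ

/-!
Project SH4, job SH4-Ext: Palais' extension theorem with control at infinity.
-/

set_option autoImplicit false

open Set Filter Topology Metric Function MeasureTheory
open scoped Manifold ContDiff NNReal

noncomputable section

namespace Pool.Agent.Y702.SH

open Pool.Agent.Y522 Pool.Agent.Y784.SH

/-- `f` agrees on every ball with a diffeomorphism which is a linear isometry far away -/
def Pr (n : ℕ) (f : E n → E n) : Prop :=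
  ∀ R : ℝ, ∃ (G : E n → E n) (O : E n ≃ₗᵢ[ℝ] E n) (R' : ℝ), Dif n G ∧
    (∀ x, ‖x‖ ≤ R → G x = f x) ∧ ∀ x, R' ≤ ‖x‖ → G x = O x

variable {n : ℕ}

theorem Pr.comp {f g : E n → E n} (hf : Pr n f) (hg : Pr n g) (hgc : Continuous g) :
    Pr n (fun x => f (g x)) := by
  intro R
  obtain ⟨G2, O2, R2, h1, h2, h3⟩ := hg R
  obtain ⟨M, hM⟩ : ∃ M, ∀ x, ‖x‖ ≤ R → ‖g x‖ ≤ M := by
    obtain ⟨M, hM⟩ :=
      (isCompact_closedBall (0 : E n) R).exists_bound_of_continuousOn hgc.continuousOn
    exact ⟨M, fun x hx => hM x (by simpa using hx)⟩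
  obtain ⟨G1, O1, R1, k1, k2, k3⟩ := hf M
  refine ⟨fun x => G1 (G2 x), O2.trans O1, max R1 R2, k1.comp h1, fun x hx => ?_, fun x hx => ?_⟩
  · show G1 (G2 x) = f (g x)
    rw [h2 x hx, k2 _ (hM x hx)]
  · show G1 (G2 x) = _
    rw [h3 x ((le_max_right _ _).trans hx), k3]
    · rfl
    · rw [O2.norm_map]; exact (le_max_left _ _).trans hx

theorem Pr.isom (O : E n ≃ₗᵢ[ℝ] E n) : Pr n (fun x => O x) := by
  intro R
  refine ⟨fun x => O x, O, 0, ⟨O.bijective, fun x => ?_⟩, fun _ _ => rfl, fun _ _ => rfl⟩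
  exact LD_linear O.toContinuousLinearEquiv x

/-- translations -/
theorem Pr.translate (v : E n) : Pr n (fun x => x + v) := by
  intro R
  set ρ : ℝ := max R 0 + ‖v‖ + 1 with hρ
  have hρ0 : 0 < ρ := by positivity
  have hlt : ρ < ρ + 1 := by linarith
  set χ : ContDiffBump (0 : E n) := ⟨ρ, ρ + 1, hρ0, hlt⟩ with hχ
  have hus : ContDiff ℝ ∞ (fun x => χ x • v) := χ.contDiff.smul contDiff_const
  have huc : HasCompactSupport (fun x => χ x • v) := χ.hasCompactSupport.smul_right
  obtain ⟨K, hK⟩ := hus.lipschitzWith_of_hasCompactSupport huc (by simp)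
  obtain ⟨N, hN⟩ := exists_nat_gt (K : ℝ)
  have hN0 : (0 : ℝ) < N := lt_of_le_of_lt K.2 hN
  have hl : LipschitzWith (Real.toNNReal ((N : ℝ)⁻¹ * K)) (fun x => (N : ℝ)⁻¹ • (χ x • v)) := by
    refine LipschitzWith.of_dist_le_mul fun x y => ?_
    have h1 : ((Real.toNNReal ((N : ℝ)⁻¹ * K) : ℝ≥0) : ℝ) = (N : ℝ)⁻¹ * K :=
      Real.coe_toNNReal _ (mul_nonneg (by positivity) (NNReal.coe_nonneg K))
    rw [dist_smul₀, Real.norm_of_nonneg (by positivity), h1, mul_assoc]
    exact mul_le_mul_of_nonneg_left (hK.dist_le_mul x y) (by positivity)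
  have hlt' : Real.toNNReal ((N : ℝ)⁻¹ * K) < 1 := by
    rw [Real.toNNReal_lt_one, inv_mul_lt_iff₀ hN0, mul_one]
    exact hN
  have hD : Dif n (fun x => x + (N : ℝ)⁻¹ • (χ x • v)) := dif_of_lip (hus.const_smul _) hlt' hl
  set h : E n → E n := fun x => x + (N : ℝ)⁻¹ • (χ x • v) with hh
  have hin : ∀ x, ‖x‖ ≤ ρ → h x = x + (N : ℝ)⁻¹ • v := by
    intro x hx
    simp only [hh]
    rw [χ.one_of_mem_closedBall (by simpa using hx), one_smul]
  have hout : ∀ x, ρ + 1 ≤ ‖x‖ → h x = x := by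
    intro x hx
    simp only [hh]
    rw [χ.zero_of_le_dist (by simpa using hx), zero_smul, smul_zero, add_zero]
  have hit : ∀ k : ℕ, k ≤ N → ∀ x : E n, ‖x‖ ≤ R → h^[k] x = x + ((k : ℝ) / N) • v := by
    intro k
    induction k with
    | zero => intro _ x _; simp
    | succ k ih =>
      intro hk x hx
      have hkN : (k : ℝ) / N ≤ 1 := by
        rw [div_le_one hN0]
        exact_mod_cast (by omega : k ≤ N)
      have hk0 : 0 ≤ (k : ℝ) / N := by positivity
      have h1 : ‖x + ((k : ℝ) / N) • v‖ ≤ ρ := by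
        refine (norm_add_le _ _).trans ?_
        rw [norm_smul, Real.norm_of_nonneg hk0]
        have h2 : (k : ℝ) / N * ‖v‖ ≤ 1 * ‖v‖ := mul_le_mul_of_nonneg_right hkN (norm_nonneg _)
        have h3 := le_max_left R 0
        linarith
      rw [iterate_succ', comp_apply, ih (by omega) x hx, hin _ h1, add_assoc, ← add_smul]
      congr 2
      push_cast
      field_simp
  refine ⟨h^[N], LinearIsometryEquiv.refl ℝ (E n), ρ + 1, hD.iterate N, fun x hx => ?_,
    fun x hx => ?_⟩
  · rw [hit N le_rfl x hx, div_self hN0.ne', one_smul]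
  · rw [iterate_fixed (hout x hx) N]
    rfl

/-- small linear perturbations of the identity -/
theorem Pr.small (n : ℕ) : ∃ w : ℝ, 0 < w ∧ ∀ L : E n →L[ℝ] E n, ‖L‖ ≤ w →
    Pr n (fun x => x + L x) := by
  obtain ⟨C, hC⟩ := Pool.Agent.Y248.SH.bmp_lip n 1 one_pos
  set b : ContDiffBump (0 : E n) := Pool.Agent.Y248.SH.bmp n 1 one_pos with hb
  have hC0 : (0 : ℝ) ≤ C := C.2
  set w : ℝ := 1 / (2 * (1 + 2 * C)) with hw
  have hw0 : 0 < w := by positivity
  have hwc : w * (1 + 2 * C) = 1 / 2 := by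
    rw [hw]; field_simp
  refine ⟨w, hw0, fun L hL R => ?_⟩
  set ρ : ℝ := max R 1 with hρ
  have hρ0 : 0 < ρ := lt_of_lt_of_le one_pos (le_max_right _ _)
  set χ : E n → ℝ := fun y => b (ρ⁻¹ • y) with hχ
  have hχs : ContDiff ℝ ∞ χ := b.contDiff.comp (contDiff_const_smul _)
  have hχ0 : ∀ y, 2 * ρ ≤ ‖y‖ → χ y = 0 := by
    intro y hy
    apply b.zero_of_le_dist
    rw [dist_zero_right, norm_smul, norm_inv, Real.norm_eq_abs, abs_of_pos hρ0]
    show 2 * 1 ≤ ρ⁻¹ * ‖y‖
    rw [mul_one, ← div_eq_inv_mul, le_div_iff₀ hρ0]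
    exact hy
  have hχ1 : ∀ y, ‖y‖ ≤ ρ → χ y = 1 := by
    intro y hy
    apply b.one_of_mem_closedBall
    rw [mem_closedBall_zero_iff, norm_smul, norm_inv, Real.norm_eq_abs, abs_of_pos hρ0]
    show ρ⁻¹ * ‖y‖ ≤ 1
    rw [← div_eq_inv_mul, div_le_one hρ0]
    exact hy
  have hχn : ∀ y, 0 ≤ χ y ∧ χ y ≤ 1 := fun y => ⟨b.nonneg, b.le_one⟩
  have hχl : ∀ x y, |χ x - χ y| ≤ C / ρ * ‖x - y‖ := by
    intro x y
    have h1 := hC.dist_le_mul (ρ⁻¹ • x) (ρ⁻¹ • y)
    rw [Real.dist_eq, dist_eq_norm, ← smul_sub, norm_smul, norm_inv, Real.norm_eq_abs,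
      abs_of_pos hρ0] at h1
    calc |χ x - χ y| ≤ C * (ρ⁻¹ * ‖x - y‖) := h1
      _ = _ := by ring
  set u : E n → E n := fun y => χ y • L y with hu
  have hus : ContDiff ℝ ∞ u := hχs.smul L.contDiff
  have hCρ : C / ρ * (w * (2 * ρ)) = 2 * C * w := by field_simp
  have key : ∀ x y, ‖y‖ ≤ 2 * ρ → ‖u x - u y‖ ≤ 1 / 2 * ‖x - y‖ := by
    intro x y hy
    have h1 : u x - u y = χ x • L (x - y) + (χ x - χ y) • L y := by
      simp only [hu, map_sub, smul_sub, sub_smul]; abel
    rw [h1]
    refine (norm_add_le _ _).trans ?_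
    rw [norm_smul, norm_smul, Real.norm_eq_abs, Real.norm_eq_abs]
    have h2 : |χ x| * ‖L (x - y)‖ ≤ 1 * (w * ‖x - y‖) := by
      apply mul_le_mul _ (L.le_of_opNorm_le hL _) (norm_nonneg _) zero_le_one
      rw [abs_of_nonneg (hχn x).1]
      exact (hχn x).2
    have h3 : |χ x - χ y| * ‖L y‖ ≤ (2 * C * w) * ‖x - y‖ := by
      have h4 : ‖L y‖ ≤ w * (2 * ρ) :=
        (L.le_of_opNorm_le hL _).trans (mul_le_mul_of_nonneg_left hy hw0.le)
      calc |χ x - χ y| * ‖L y‖ ≤ (C / ρ * ‖x - y‖) * (w * (2 * ρ)) :=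
            mul_le_mul (hχl x y) h4 (norm_nonneg _) (by positivity)
        _ = (C / ρ * (w * (2 * ρ))) * ‖x - y‖ := by ring
        _ = _ := by rw [hCρ]
    calc |χ x| * ‖L (x - y)‖ + |χ x - χ y| * ‖L y‖ ≤
          1 * (w * ‖x - y‖) + (2 * C * w) * ‖x - y‖ := add_le_add h2 h3
      _ = (w * (1 + 2 * C)) * ‖x - y‖ := by ring
      _ = _ := by rw [hwc]
  have hul : LipschitzWith (1 / 2) u := by
    refine LipschitzWith.of_dist_le_mul fun x y => ?_
    rw [dist_eq_norm, dist_eq_norm]
    have hhalf : (((1 / 2 : NNReal)) : ℝ) = 1 / 2 := by norm_num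
    rw [hhalf]
    rcases le_total ‖y‖ (2 * ρ) with hy | hy
    · exact key x y hy
    · rcases le_total ‖x‖ (2 * ρ) with hx | hx
      · rw [← norm_neg, neg_sub, ← norm_neg (x - y), neg_sub]
        exact key y x hx
      · have h1 : u x - u y = 0 := by
          simp only [hu, hχ0 x hx, hχ0 y hy, zero_smul, sub_zero]
        rw [h1, norm_zero]
        positivity
  have hD : Dif n (fun x => x + u x) := dif_of_lip hus (by
    rw [← NNReal.coe_lt_coe]; norm_num) hul
  refine ⟨fun x => x + u x, LinearIsometryEquiv.refl ℝ (E n), 2 * ρ, hD, fun x hx => ?_,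
    fun x hx => ?_⟩
  · show x + u x = x + L x
    simp only [hu, hχ1 x (hx.trans (le_max_left _ _)), one_smul]
  · show x + u x = x
    simp only [hu, hχ0 x hx, zero_smul, add_zero]

/-- one-parameter groups -/
theorem Pr.oneParam (K : ℝ → (E n →L[ℝ] E n)) (hK0 : K 0 = 1) (hKm : ∀ s t, K (s + t) = K s * K t)
    (hKc : ContinuousAt K 0) : Pr n (fun x => K 1 x) := by
  obtain ⟨w, hw0, hw⟩ := Pr.small n
  have h1 : ∀ᶠ s in 𝓝 (0 : ℝ), ‖K s - 1‖ < w := by
    have h2 : Tendsto (fun s => ‖K s - 1‖) (𝓝 0) (𝓝 ‖K 0 - 1‖) := (hKc.sub continuousAt_const).norm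
    rw [hK0, sub_self, norm_zero] at h2
    exact h2.eventually (gt_mem_nhds hw0)
  have h2 : Tendsto (fun N : ℕ => (1 : ℝ) / ((N : ℝ) + 1)) atTop (𝓝 0) :=
    tendsto_one_div_add_atTop_nhds_zero_nat
  obtain ⟨N, hN⟩ := (h2.eventually h1).exists
  set s : ℝ := 1 / ((N : ℝ) + 1) with hs
  have h3 : Pr n (fun x => K s x) := by
    have h4 := hw (K s - 1) hN.le
    have h5 : (fun x => x + (K s - 1) x) = fun x => K s x := by
      funext x
      show x + (K s x - x) = K s x
      abel
    rwa [h5] at h4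
  have h6 : ∀ k : ℕ, Pr n (fun x => K (k * s) x) := by
    intro k
    induction k with
    | zero =>
      have h7 : (fun x => K ((0 : ℕ) * s) x) = fun x : E n => (LinearIsometryEquiv.refl ℝ (E n)) x := by
        funext x
        rw [Nat.cast_zero, zero_mul, hK0]
        rfl
      rw [h7]
      exact Pr.isom _
    | succ k ih =>
      have h7 : (fun x => K ((k + 1 : ℕ) * s) x) = fun x => K s (K (k * s) x) := by
        funext x
        rw [show ((k + 1 : ℕ) : ℝ) * s = s + k * s by push_cast; ring, hKm]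
        rfl
      rw [h7]
      exact h3.comp ih (K (k * s)).continuous
  have h8 := h6 (N + 1)
  have h9 : ((N + 1 : ℕ) : ℝ) * s = 1 := by
    rw [hs]
    push_cast
    field_simp
  rwa [h9] at h8

/-- matrices -/
theorem Pr.matrix (M : Matrix (Fin n) (Fin n) ℝ) (hM : M.det ≠ 0) :
    Pr n (fun x => Matrix.toEuclideanCLM (n := Fin n) (𝕜 := ℝ) M x) := by
  set T := Matrix.toEuclideanCLM (n := Fin n) (𝕜 := ℝ) with hT
  have hTc : Continuous T := by
    exact (LinearMap.continuous_of_finiteDimensional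
      (T.toAlgEquiv.toLinearMap : Matrix (Fin n) (Fin n) ℝ →ₗ[ℝ] _))
  refine Matrix.diagonal_transvection_induction_of_det_ne_zero
    (fun M => Pr n (fun x => T M x)) M hM ?_ ?_ ?_
  · intro D hD
    have hD0 : ∀ i, D i ≠ 0 := by
      rw [Matrix.det_diagonal, Finset.prod_ne_zero_iff] at hD
      exact fun i => hD i (Finset.mem_univ i)
    set O : E n ≃ₗᵢ[ℝ] E n := LinearIsometryEquiv.piLpCongrRight 2
      (fun i => if D i < 0 then LinearIsometryEquiv.neg ℝ else LinearIsometryEquiv.refl ℝ ℝ) with hO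
    set K : ℝ → (E n →L[ℝ] E n) := fun s => T (Matrix.diagonal fun i => Real.exp (s * Real.log (D i)))
      with hK
    have h1 : Pr n (fun x => K 1 x) := by
      refine Pr.oneParam K ?_ ?_ ?_
      · simp only [hK, zero_mul, Real.exp_zero]
        rw [Matrix.diagonal_one, map_one]
      · intro s t
        simp only [hK]
        rw [← map_mul, Matrix.diagonal_mul_diagonal]
        congr 2
        funext i
        rw [← Real.exp_add]
        ring_nf
      · refine (hTc.comp ?_).continuousAt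
        refine Continuous.matrix_diagonal ?_
        fun_prop
    have h2 := (Pr.isom O).comp h1 (K 1).continuous
    have h3 : (fun x => O (K 1 x)) = fun x => T (Matrix.diagonal D) x := by
      funext x
      obtain ⟨x, rfl⟩ : ∃ y : Fin n → ℝ, x = WithLp.toLp 2 y := ⟨x.ofLp, rfl⟩
      simp only [hK, hT, hO]
      rw [Matrix.toEuclideanCLM_toLp, Matrix.toEuclideanCLM_toLp,
        LinearIsometryEquiv.piLpCongrRight_apply]
      congr 1
      funext i
      simp only [Matrix.mulVec_diagonal, one_mul]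
      rw [Real.exp_log_eq_abs (hD0 i)]
      split_ifs with hi
      · rw [abs_of_neg hi]
        simp
      · rw [abs_of_nonneg (not_lt.1 hi)]
        simp
    rwa [h3] at h2
  · intro t
    set K : ℝ → (E n →L[ℝ] E n) := fun s => T (Matrix.transvection t.i t.j (s * t.c)) with hK
    have h1 : Pr n (fun x => K 1 x) := by
      refine Pr.oneParam K ?_ ?_ ?_
      · simp only [hK, zero_mul, Matrix.transvection_zero, map_one]
      · intro s t'
        simp only [hK]
        rw [← map_mul, Matrix.transvection_mul_transvection_same _ _ t.hij, add_mul]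
      · refine (hTc.comp ?_).continuousAt
        unfold Matrix.transvection
        refine continuous_const.add ?_
        have h2 : (fun s : ℝ => Matrix.single t.i t.j (s * t.c)) =
            fun s : ℝ => s • Matrix.single t.i t.j t.c := by
          funext s
          rw [Matrix.smul_single, smul_eq_mul]
        rw [h2]
        fun_prop
    have h2 : (fun x => K 1 x) = fun x => T t.toMatrix x := by
      simp only [hK, one_mul]
      rfl
    rwa [h2] at h1
  · intro A B hA hB hPA hPB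
    have h1 := hPA.comp hPB (T B).continuous
    have h2 : (fun x => T A (T B x)) = fun x => T (A * B) x := by
      funext x
      rw [map_mul]
      rfl
    rwa [h2] at h1

/-- linear maps -/
theorem Pr.linear (A : E n ≃L[ℝ] E n) : Pr n (fun x => A x) := by
  set T := Matrix.toEuclideanCLM (n := Fin n) (𝕜 := ℝ) with hT
  have h1 : T.symm ((A : E n →L[ℝ] E n)) * T.symm ((A.symm : E n →L[ℝ] E n)) = 1 := by
    rw [← map_mul]
    have : (A : E n →L[ℝ] E n) * (A.symm : E n →L[ℝ] E n) = 1 := by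
      ext1 x
      exact A.apply_symm_apply x
    rw [this, map_one]
  have h2 : (T.symm ((A : E n →L[ℝ] E n))).det ≠ 0 := by
    intro h
    have h3 := congrArg Matrix.det h1
    rw [Matrix.det_mul, h, zero_mul, Matrix.det_one] at h3
    exact one_ne_zero h3.symm
  have h3 := Pr.matrix _ h2
  have h4 : (fun x => Matrix.toEuclideanCLM (n := Fin n) (𝕜 := ℝ)
      (T.symm ((A : E n →L[ℝ] E n))) x) = fun x => A x := by
    funext x
    rw [← hT, T.apply_symm_apply]
    rfl
  rwa [h4] at h3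

/-- conjugation of a compactly supported diffeomorphism with an open embedding -/
theorem conj' {g h : E n → E n} (hg : Injective g) (hgd : ∀ x, LD n g x) (hh : Dif n h) {R' : ℝ}
    (hR' : ∀ x, R' ≤ ‖x‖ → h x = x) : ∃ D : E n → E n, Dif n D ∧ (∀ x, D (g x) = g (h x)) ∧
      ∃ R'' : ℝ, ∀ z, R'' ≤ ‖z‖ → D z = z := by
  classical
  set gi : E n → E n := fun z => if hz : z ∈ range g then hz.choose else z with hgi
  have hgi1 : ∀ x, gi (g x) = x := by
    intro x
    have hz : g x ∈ range g := mem_range_self x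
    have : gi (g x) = hz.choose := dif_pos hz
    rw [this]
    exact hg hz.choose_spec
  set D : E n → E n := fun z => if z ∈ range g then g (h (gi z)) else z with hD
  have hD1 : ∀ x, D (g x) = g (h x) := by
    intro x
    simp only [hD, mem_range_self, if_true, hgi1]
  have hD2 : ∀ z, z ∉ range g → D z = z := fun z hz => if_neg hz
  have hK : IsCompact (g '' closedBall 0 R') := by
    refine (isCompact_closedBall (0 : E n) R').image ?_
    exact continuous_iff_continuousAt.2 fun x => (hgd x).continuousAt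
  have hD3 : ∀ z, z ∉ g '' closedBall 0 R' → D z = z := by
    intro w hw
    by_cases hwr : w ∈ range g
    · obtain ⟨x, rfl⟩ := hwr
      rw [hD1, hR']
      by_contra hcon
      push Not at hcon
      exact hw ⟨x, by simpa using hcon.le, rfl⟩
    · exact hD2 w hwr
  refine ⟨D, ⟨⟨?_, ?_⟩, ?_⟩, hD1, ?_⟩
  · intro z z' hzz
    by_cases hz : z ∈ range g
    · obtain ⟨x, rfl⟩ := hz
      by_cases hz' : z' ∈ range g
      · obtain ⟨x', rfl⟩ := hz'
        rw [hD1, hD1] at hzz
        rw [hh.1.1 (hg hzz)]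
      · rw [hD1, hD2 z' hz'] at hzz
        exact absurd ⟨_, hzz⟩ hz'
    · by_cases hz' : z' ∈ range g
      · obtain ⟨x', rfl⟩ := hz'
        rw [hD1, hD2 z hz] at hzz
        exact absurd ⟨_, hzz.symm⟩ hz
      · rwa [hD2 z hz, hD2 z' hz'] at hzz
  · intro z
    by_cases hz : z ∈ range g
    · obtain ⟨x, rfl⟩ := hz
      obtain ⟨y, rfl⟩ := hh.1.2 x
      exact ⟨g y, hD1 y⟩
    · exact ⟨z, hD2 z hz⟩
  · intro z
    by_cases hz : z ∈ range g
    · obtain ⟨x, rfl⟩ := hz
      have h1 : LD n gi (g x) := LD.inverse isOpen_univ (fun x _ => hgd x) (fun x _ => hgi1 x)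
        (mem_univ x)
      have h2 : LD n (fun z => g (h (gi z))) (g x) := by
        refine LD.comp_fun (g := g) (hgd _) (LD.comp_fun (g := h) (hh.2 _) h1)
      refine h2.congr ?_
      have ho : IsOpen (range g) := by
        rw [← image_univ]
        exact isOpen_image_of_LD isOpen_univ fun x _ => hgd x
      filter_upwards [ho.mem_nhds (mem_range_self x)] with w hw
      exact if_pos hw
    · have hz' : z ∈ (g '' closedBall 0 R')ᶜ := by
        rintro ⟨x, -, rfl⟩
        exact hz (mem_range_self x)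
      refine (LD.id z).congr ?_
      filter_upwards [hK.isClosed.isOpen_compl.mem_nhds hz'] with w hw
      exact hD3 w hw
  · obtain ⟨r, hr⟩ := hK.isBounded.subset_closedBall 0
    refine ⟨r + 1, fun z hz => hD3 z fun hz' => ?_⟩
    have := hr hz'
    rw [mem_closedBall_zero_iff] at this
    linarith

/-- maps tangent to the identity at the origin -/
theorem Pr.ext0 (hG : StGerm) {g : E n → E n} (hg : Injective g) (hgd : ∀ x, LD n g x)
    (h0 : g 0 = 0) (hd : HasFDerivAt g (ContinuousLinearMap.id ℝ (E n)) 0) : Pr n g := by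
  intro R
  obtain ⟨P, χ, hP1, hP2, hP3, hP4, -, hP5⟩ := hG n g
    (Eventually.of_forall fun y => (hgd y).contDiffAt) h0 hd 1 one_pos
  obtain ⟨r, hr, hrP⟩ := Metric.eventually_nhds_iff.1 hP3
  obtain ⟨h, R', hh, hh1, hh2⟩ := compress n R (r / 2) (by positivity)
  obtain ⟨D, hD, hD1, R'', hD2⟩ := conj' hg hgd hh hh1
  obtain ⟨D', hD', hD'1, -⟩ := hD.inv
  refine ⟨fun x => D' (P (h x)), LinearIsometryEquiv.refl ℝ (E n), max R' (max 1 R''),
    hD'.comp (Dif.comp ⟨hP1, hP2⟩ hh), fun x hx => ?_, fun x hx => ?_⟩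
  · have h1 : P (h x) = g (h x) := hrP (by
      rw [dist_zero_right]
      have := hh2 x hx
      linarith)
    show D' (P (h x)) = g x
    rw [h1, ← hD1, hD'1]
  · show D' (P (h x)) = x
    have e1 : R' ≤ ‖x‖ := (le_max_left _ _).trans hx
    have e2 : 1 ≤ ‖x‖ := (le_max_left _ _).trans ((le_max_right _ _).trans hx)
    have e3 : R'' ≤ ‖x‖ := (le_max_right _ _).trans ((le_max_right _ _).trans hx)
    rw [hh1 x e1, hP5 x, hP4 x e2, zero_smul, add_zero]
    have h1 := hD'1 x
    rwa [hD2 x e3] at h1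

/-- Palais' extension theorem with control at infinity -/
theorem extO : StExtO := by
  intro n g hg hgd R
  obtain ⟨A, hA⟩ := (hgd 0).exists_equiv
  set k : E n → E n := fun x => A.symm (g x - g 0) with hk
  have hk1 : Injective k := by
    intro x y hxy
    have h1 := A.symm.injective hxy
    exact hg (sub_left_injective h1)
  have hT : ∀ z : E n, LD n (fun y => y - g 0) z := fun z => by
    have := LD_add_const (-g 0) z
    simpa [sub_eq_add_neg] using this
  have hk2 : ∀ x, LD n k x := fun x =>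
    LD.comp_fun (g := fun y => A.symm y) (LD_linear A.symm _)
      (LD.comp_fun (g := fun y => y - g 0) (hT _) (hgd x))
  have hk3 : k 0 = 0 := by simp [hk]
  have hk4 : HasFDerivAt k (ContinuousLinearMap.id ℝ (E n)) 0 := by
    have h1 : HasFDerivAt (fun x => g x - g 0) (A : E n →L[ℝ] E n) 0 := hA.sub_const _
    have h2 := (A.symm : E n →L[ℝ] E n).hasFDerivAt.comp (0 : E n) h1
    refine h2.congr_fderiv ?_
    ext v
    simp
  have hkc : Continuous k := continuous_iff_continuousAt.2 fun x => (hk2 x).continuousAt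
  have h1 : Pr n k := Pr.ext0 Pool.Agent.Y248.SH.germ hk1 hk2 hk3 hk4
  have h2 : Pr n (fun x => A (k x)) := (Pr.linear A).comp h1 hkc
  have h3 : Pr n (fun x => A (k x) + g 0) :=
    (Pr.translate (g 0)).comp h2 (A.continuous.comp hkc)
  have h4 : (fun x => A (k x) + g 0) = g := by
    funext x
    simp [hk]
  rw [h4] at h3
  obtain ⟨G, O, R', e1, e2, e3⟩ := h3 R
  exact ⟨G, O, R', e1.1, e1.2, e2, e3⟩

end Pool.Agent.Y702.SH
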