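import Pool.Agent.Y522.Stm7

/-!
Project SH4, job SH4-GlobV: covering with a general connected open range, and the finite
induction with values in an open set.
(The two proofs are adapted from `Pool.Agent.Y899.SH.Cover` and `Pool.Agent.Y73.SH.Glob`.)
-/

set_option autoImplicit false

open Set Filter Topology Metric Function MeasureTheory
open scoped Manifold ContDiff

noncomputable section

namespace Pool.Agent.Y702.SH

open Pool.Agent.Y522

theorem mem_of_mem_closure_inter {α : Type*} [TopologicalSpace α] {s K : Set α} {y : α}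
    (hK : K ∈ 𝓝 y) (hc : IsClosed (s ∩ K)) (hy : y ∈ closure s) : y ∈ s := by
  have h1 : y ∈ closure (s ∩ K) := by
    rw [mem_closure_iff_nhds] at hy ⊢
    intro t ht
    obtain ⟨z, ⟨hz1, hz2⟩, hz3⟩ := hy (t ∩ K) (Filter.inter_mem ht hK)
    exact ⟨z, hz1, hz3, hz2⟩
  rw [hc.closure_eq] at h1
  exact h1.1

theorem coverV : StCoverV := by
  intro n X _ _ _ F F' C hF hconn hC heq hmem hLD
  have hF'c : Continuous F' := continuous_iff_continuousAt.mpr fun x => (hLD x).continuousAt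
  have hopen : ∀ U : Set X, IsOpen U → IsOpen (F' '' U) := fun U hU =>
    isOpen_image_of_LD hU (fun x _ => hLD x)
  have hsub : range F' ⊆ range F := by
    rintro _ ⟨x, rfl⟩
    exact hmem x
  rcases isEmpty_or_nonempty X with hE | hne
  · refine ⟨fun a => (hE.false a).elim, ?_⟩
    rw [range_eq_empty, range_eq_empty]
  set V : Set (E n) := range F with hVdef
  have hVo : IsOpen V := hF.isOpen_range
  -- properness
  have hprop : ∀ K : Set (E n), IsCompact K → K ⊆ V → IsCompact (F' ⁻¹' K) := by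
    intro K hK hKb
    have h1 : IsCompact (F ⁻¹' K) :=
      (hF.isInducing.isCompact_preimage_iff hKb).mpr hK
    refine (hC.union h1).of_isClosed_subset (hK.isClosed.preimage hF'c) ?_
    intro x hx
    by_cases hxC : x ∈ C
    · exact Or.inl hxC
    · right
      show F x ∈ K
      rw [← heq x hxC]
      exact hx
  have hnhd : ∀ y ∈ V, ∃ K : Set (E n), K ∈ 𝓝 y ∧ IsCompact K ∧ K ⊆ V := by
    intro y hy
    obtain ⟨ε, hε, hεb⟩ := nhds_basis_closedBall.mem_iff.mp (hVo.mem_nhds hy)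
    exact ⟨closedBall y ε, closedBall_mem_nhds y hε, isCompact_closedBall y ε, hεb⟩
  have hsurj : V ⊆ range F' := by
    apply hconn.subset_of_closure_inter_subset
    · rw [← image_univ]
      exact hopen univ isOpen_univ
    · obtain ⟨x⟩ := hne
      exact ⟨F' x, hsub ⟨x, rfl⟩, ⟨x, rfl⟩⟩
    · rintro y ⟨hy1, hy2⟩
      obtain ⟨K, hK1, hK2, hK3⟩ := hnhd y hy2
      refine mem_of_mem_closure_inter hK1 ?_ hy1
      have h1 : range F' ∩ K = F' '' (F' ⁻¹' K) := by
        rw [image_preimage_eq_range_inter]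
      rw [h1]
      exact ((hprop K hK2 hK3).image hF'c).isClosed
  refine ⟨?_, Subset.antisymm hsub hsurj⟩
  -- the double points
  let D : Set (E n) := {y | ∃ x x', x ≠ x' ∧ F' x = y ∧ F' x' = y}
  have hDo : IsOpen D := by
    rw [isOpen_iff_mem_nhds]
    rintro y ⟨x, x', hxx, hx, hx'⟩
    obtain ⟨U, W, hU, hW, hxU, hxW, hUW⟩ := t2_separation hxx
    have h1 : F' '' U ∩ F' '' W ∈ 𝓝 y := by
      apply IsOpen.mem_nhds ((hopen U hU).inter (hopen W hW))
      exact ⟨⟨x, hxU, hx⟩, ⟨x', hxW, hx'⟩⟩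
    filter_upwards [h1] with z hz
    obtain ⟨⟨a, ha, haz⟩, ⟨b, hb, hbz⟩⟩ := hz
    refine ⟨a, b, ?_, haz, hbz⟩
    rintro rfl
    exact (Set.disjoint_left.mp hUW) ha hb
  have hDc : closure D ∩ V ⊆ D := by
    rintro y ⟨hy1, hy2⟩
    obtain ⟨K, hK1, hK2, hK3⟩ := hnhd y hy2
    refine mem_of_mem_closure_inter hK1 ?_ hy1
    have hP := hprop K hK2 hK3
    -- neighbourhood of the diagonal
    have hloc : ∀ x : X, ∃ U : Set X, IsOpen U ∧ x ∈ U ∧ InjOn F' U := by
      intro x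
      obtain ⟨u, hu, hinj⟩ := (hLD x).eventually_injOn
      obtain ⟨v, hv1, hv2, hv3⟩ := mem_nhds_iff.mp hu
      exact ⟨v, hv2, hv3, hinj.mono hv1⟩
    choose U hU1 hU2 hU3 using hloc
    let W : Set (X × X) := ⋃ x, U x ×ˢ U x
    have hW : IsOpen W := isOpen_iUnion fun x => (hU1 x).prod (hU1 x)
    have hQ : IsCompact (((F' ⁻¹' K) ×ˢ (F' ⁻¹' K)) ∩ ({p : X × X | F' p.1 = F' p.2} ∩ Wᶜ)) := by
      apply (hP.prod hP).inter_right
      apply IsClosed.inter
      · exact isClosed_eq (hF'c.comp continuous_fst) (hF'c.comp continuous_snd)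
      · exact hW.isClosed_compl
    have h1 : D ∩ K = (fun p : X × X => F' p.1) ''
        (((F' ⁻¹' K) ×ˢ (F' ⁻¹' K)) ∩ ({p : X × X | F' p.1 = F' p.2} ∩ Wᶜ)) := by
      ext z
      constructor
      · rintro ⟨⟨x, x', hxx, hx, hx'⟩, hzK⟩
        refine ⟨(x, x'), ⟨⟨?_, ?_⟩, ?_, ?_⟩, hx⟩
        · show F' x ∈ K
          rw [hx]; exact hzK
        · show F' x' ∈ K
          rw [hx']; exact hzK
        · show F' x = F' x'
          rw [hx, hx']
        · intro hxW
          obtain ⟨w, hw⟩ := mem_iUnion.mp hxW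
          exact hxx (hU3 w hw.1 hw.2 (by show F' x = F' x'; rw [hx, hx']))
      · rintro ⟨⟨x, x'⟩, ⟨⟨h1, h2⟩, h3, h4⟩, rfl⟩
        refine ⟨⟨x, x', ?_, rfl, h3.symm⟩, h1⟩
        rintro rfl
        exact h4 (mem_iUnion.mpr ⟨x, hU2 x, hU2 x⟩)
    rw [h1]
    exact (hQ.image (hF'c.comp continuous_fst)).isClosed
  intro a b hab
  by_contra hne'
  have hDb : (V ∩ D).Nonempty := ⟨F' a, hsub ⟨a, rfl⟩, ⟨a, b, hne', rfl, hab.symm⟩⟩
  have hDall : V ⊆ D := hconn.subset_of_closure_inter_subset hDo hDb hDc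
  rcases Nat.eq_zero_or_pos n with hn | hn
  · subst hn
    exact hne' (hF.injective (Subsingleton.elim _ _))
  · -- a point of the range off the images of `C`
    have hS : IsCompact (F '' C ∪ F' '' C) :=
      (hC.image hF.continuous).union (hC.image hF'c)
    have hSb : F '' C ∪ F' '' C ⊆ V := by
      rintro _ (⟨x, -, rfl⟩ | ⟨x, -, rfl⟩)
      · exact ⟨x, rfl⟩
      · exact hsub ⟨x, rfl⟩
    have hex : ∃ y ∈ V, y ∉ F '' C ∪ F' '' C := by
      by_contra hcon
      push Not at hcon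
      have h2 : V = F '' C ∪ F' '' C := Subset.antisymm hcon hSb
      have h3 : IsCompact V := by rw [h2]; exact hS
      have h4 : V = univ := IsClopen.eq_univ ⟨h3.isClosed, hVo⟩ (range_nonempty F)
      obtain ⟨r, hr⟩ := (h4 ▸ h3.isBounded : Bornology.IsBounded (univ : Set (E n))).subset_closedBall 0
      have h5 : EuclideanSpace.single (⟨0, hn⟩ : Fin n) (|r| + 1 : ℝ) ∈ closedBall (0 : E n) r :=
        hr (mem_univ _)
      rw [mem_closedBall_zero_iff, EuclideanSpace.norm_single, Real.norm_eq_abs,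
        abs_of_pos (by positivity)] at h5
      have := le_abs_self r
      linarith
    obtain ⟨y, hy1, hy2⟩ := hex
    obtain ⟨x, x', hxx, hx, hx'⟩ := hDall hy1
    have h6 : x ∉ C := fun h => hy2 (Or.inr ⟨x, h, hx⟩)
    have h7 : x' ∉ C := fun h => hy2 (Or.inr ⟨x', h, hx'⟩)
    apply hxx
    apply hF.injective
    rw [← heq x h6, ← heq x' h7, hx, hx']

theorem MBox.mono' {n : ℕ} {X : Type} {F : X → E n} {A : E n → X} {ρ ρ' κ κ' : ℝ}
    (h : MBox n F A ρ κ) (h1 : ρ' ≤ ρ) (h2 : κ' ≤ κ) : MBox n F A ρ' κ' := by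
  intro u hu
  obtain ⟨ℓ, hℓ⟩ := h u hu
  exact ⟨ℓ, fun p q hp hq t ht hpq => hℓ p q (hp.trans h1) (hq.trans h1) t ht
    (hpq.trans (mul_le_mul_of_nonneg_right h2 ht.le))⟩

theorem exists_lower {N : ℕ} (f : Fin N → ℝ) (hf : ∀ j, 0 < f j) : ∃ κ : ℝ, 0 < κ ∧ ∀ j, κ ≤ f j := by
  have h0 : 0 ≤ ∑ j, (f j)⁻¹ := Finset.sum_nonneg fun j _ => (inv_pos.2 (hf j)).le
  refine ⟨(∑ j, (f j)⁻¹ + 1)⁻¹, inv_pos.2 (by linarith), fun j => ?_⟩
  rw [inv_le_comm₀ (by linarith) (hf j)]
  have h1 : (f j)⁻¹ ≤ ∑ j, (f j)⁻¹ :=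
    Finset.single_le_sum (f := fun j => (f j)⁻¹) (fun j _ => (inv_pos.2 (hf j)).le)
      (Finset.mem_univ j)
  linarith

theorem mglobV (hS : StMStepV) (hC : StMChart) (hV : StCoverV) : StMGlobV := by
  intro n X _ _ _ _ F hF hconn hD hK
  have h1 : ∀ x, ¬ LD n F x → ∃ (B : E n → X) (κ : ℝ), 0 < κ ∧ B 0 = x ∧
      InjOn B (closedBall 0 2) ∧ (∀ z ∈ closedBall 0 2, LD n B z) ∧ MBox n F B 2 κ :=
    fun x hx => hC n X F x (hD x hx)
  choose! B κ hκ hB0 hBi hBd hBm using h1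
  have hU : ∀ x (hx : x ∈ {x | ¬ LD n F x}), B x '' ball 0 (1 / 2) ∈ 𝓝 x := by
    intro x hx
    have h2 : LD n (B x) 0 := hBd x hx 0 (by simp)
    have h3 := h2.image_mem_nhds (ball_mem_nhds (0 : E n) (by norm_num : (0 : ℝ) < 1 / 2))
    rwa [hB0 x hx] at h3
  obtain ⟨t, ht⟩ := hK.elim_nhds_subcover' (fun x _ => B x '' ball 0 (1 / 2)) hU
  set N := t.card with hN
  set A : Fin N → E n → X := fun j => B ((t.equivFin.symm j).1 : X) with hA
  have hAK : ∀ j : Fin N, ¬ LD n F ((t.equivFin.symm j).1 : X) := fun j =>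
    (t.equivFin.symm j).1.2
  obtain ⟨κ₀, hκ0, hκ1⟩ := exists_lower (fun j : Fin N => κ ((t.equivFin.symm j).1 : X))
    (fun j => hκ _ (hAK j))
  have hAi : ∀ j, InjOn (A j) (closedBall 0 2) := fun j => hBi _ (hAK j)
  have hAd : ∀ j, ∀ z ∈ closedBall (0 : E n) 2, LD n (A j) z := fun j => hBd _ (hAK j)
  have hcov : ∀ x, ¬ LD n F x → ∃ j z, ‖z‖ ≤ 1 / 2 ∧ A j z = x := by
    intro x hx
    have h2 := ht hx
    rw [mem_iUnion₂] at h2
    obtain ⟨y, hy, z, hz, hzx⟩ := h2
    refine ⟨t.equivFin ⟨y, hy⟩, z, ?_, ?_⟩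
    · rw [mem_ball_zero_iff] at hz
      exact hz.le
    · simp only [hA, Equiv.symm_apply_apply]
      exact hzx
  have hF1 : ∀ p, F p ∈ range F := fun p => mem_range_self p
  -- the induction
  have key : ∀ i : ℕ, i ≤ N → ∃ F' : X → E n, Continuous F' ∧ (∀ p, F' p ∈ range F) ∧
      (∀ p, (∀ j, p ∉ A j '' closedBall 0 1) → F' p = F p) ∧ (∀ p, LD n F p → LD n F' p) ∧
      (∀ j : Fin N, (j : ℕ) < i → ∀ z, ‖z‖ ≤ 1 / 2 → LD n F' (A j z)) ∧
      ∀ j, MBox n F' (A j) (2 - i / (2 * N)) (κ₀ * (1 - i / (2 * N))) := by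
    intro i
    induction i with
    | zero =>
      intro _
      refine ⟨F, hF.continuous, hF1, fun _ _ => rfl, fun _ h => h, fun j hj => absurd hj (by omega),
        fun j => ?_⟩
      refine MBox.mono' (hBm _ (hAK j)) (by simp) ?_
      have := hκ1 j
      simpa using this
    | succ i ih =>
      intro hi
      obtain ⟨F', h2, h3, h4, h5, h6, h7⟩ := ih (by omega)
      have hN0 : (0 : ℝ) < N := by exact_mod_cast (by omega : 0 < N)
      have hiN : ((i : ℝ) + 1) ≤ N := by exact_mod_cast hi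
      have hi0 : (0 : ℝ) ≤ i := by positivity
      have e1 : ((i : ℝ) + 1) / (2 * N) ≤ 1 / 2 := by
        rw [div_le_iff₀ (by positivity)]
        linarith
      have e2 : (i : ℝ) / (2 * N) < ((i : ℝ) + 1) / (2 * N) := by
        apply div_lt_div_of_pos_right _ (by positivity)
        linarith
      have e3 : 0 ≤ (i : ℝ) / (2 * N) := by positivity
      obtain ⟨F'', g1, g2, g3, g4, g5, g6⟩ := hS n X F' (range F) N A ⟨i, by omega⟩
        (2 - i / (2 * N)) (2 - ((i : ℝ) + 1) / (2 * N)) (κ₀ * (1 - i / (2 * N)))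
        (κ₀ * (1 - ((i : ℝ) + 1) / (2 * N))) h2 hF.isOpen_range h3 hAi hAd (by linarith)
        (by linarith) (by linarith) (mul_pos hκ0 (by linarith))
        (mul_lt_mul_of_pos_left (by linarith) hκ0) h7
      refine ⟨F'', g1, g3, ?_, fun p hp => g4 p (h5 p hp), ?_, ?_⟩
      · intro p hp
        rw [g2 p (hp _), h4 p hp]
      · intro j hj z hz
        rcases Nat.lt_succ_iff_lt_or_eq.1 hj with h8 | h8
        · exact g4 _ (h6 j h8 z hz)
        · have h9 : j = ⟨i, by omega⟩ := Fin.ext h8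
          rw [h9]
          exact g5 z hz
      · push_cast
        exact g6
  obtain ⟨F', h2, h3, h4, h5, h6, -⟩ := key N le_rfl
  set C : Set X := ⋃ j, A j '' closedBall 0 1 with hCdef
  have hCc : IsCompact C := by
    apply isCompact_iUnion
    intro j
    apply (isCompact_closedBall _ _).image_of_continuousOn
    intro z hz
    exact (hAd j z (closedBall_subset_closedBall (by norm_num) hz)).continuousAt.continuousWithinAt
  have h7 : ∀ p, p ∉ C → F' p = F p := by
    intro p hp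
    apply h4
    intro j hj
    exact hp (mem_iUnion.2 ⟨j, hj⟩)
  have h8 : ∀ x, LD n F' x := by
    intro x
    by_cases hx : LD n F x
    · exact h5 x hx
    · obtain ⟨j, z, hz, rfl⟩ := hcov x hx
      exact h6 j j.2 z hz
  obtain ⟨h9, h10⟩ := hV n X F F' C hF hconn hCc h7 h3 h8
  exact ⟨F', C, hCc, h2, h9, h10, h7, h8⟩

end Pool.Agent.Y702.SH
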